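import Pool.Agent.KS6_37.RS.Fin
import Pool.Agent.KS6_37.RS.Kill

/-!
# A finitely generated group that is residually finite and residually soluble, but not residually
finite-soluble

Let `R` be the ring of the rational polynomials `f` with `f(p) ∈ ℤ_p` for all primes `p`, let
`x = 1 - X`, and `U d = X ^ (2 d) / d ∈ R` for `d ≥ 1`; so `1 = d U_d + x h_d` with
`h_d ∈ ℤ[X]`. The group acts on the finitely supported functions `ℤ → R³`; it is generated by one
translation (by the first basis vector at `0`), the shift, the six elementary matrices `e_ik(x)`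
acting in every place, and the operator which acts at the place `j` as `e_21(x u_j)`, where
`u_j = U_(v + 1)` for the `2`-adic valuation `v` of `j` (and `u_0 = 0`).

* Modulo `x` only the shift and the translations survive, modulo `x ^ k` the group is soluble.
* Modulo `p ^ n` at `X = p` the function `u` is periodic (as `U d = 0` for `d ≥ n`), which gives
  finite quotients.
* In a quotient of order `c` the translations by `r = c (U_c r) + x h r` and by `x h r` coincide
  (for suitable `r`), so by induction one can replace `r` by `x ^ m r'` for every `m`; the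
  translation by `x ^ m r'` is a commutator of a translation with `e_ik(x ^ m)`, which is in the
  `l`-th derived subgroup for `m ≥ 2 ^ l`.
-/

set_option autoImplicit false

namespace Pool.Agent.Results.MP_92b5af_al.FinitelyGenerated

open Pool.Agent.KS6_37

/-- There is a **finitely generated** group that is residually finite and residually soluble, but
not residually finite-soluble. -/
theorem result : ∃ (Γ : Type) (_ : Group Γ), Group.FG Γ ∧
    (∀ g : Γ, g ≠ 1 → ∃ (N : Subgroup Γ) (_ : N.Normal), g ∉ N ∧ Finite (Γ ⧸ N)) ∧
    (∀ g : Γ, g ≠ 1 → ∃ (N : Subgroup Γ) (_ : N.Normal), g ∉ N ∧ Group.IsSolvable (Γ ⧸ N)) ∧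
    ¬ (∀ g : Γ, g ≠ 1 → ∃ (N : Subgroup Γ) (_ : N.Normal),
      g ∉ N ∧ Finite (Γ ⧸ N) ∧ Group.IsSolvable (Γ ⧸ N)) := by
  refine ⟨RS.Γ, inferInstance, RS.Γ_fg, RS.residually_finite, RS.residually_soluble, fun h => ?_⟩
  obtain ⟨g, hg, hk⟩ := RS.exists_kill
  obtain ⟨N, hN, h1, h2, h3⟩ := h g hg
  exact h1 (hk N hN h2 h3)

end Pool.Agent.Results.MP_92b5af_al.FinitelyGenerated
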